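import Mathlib
import Pool.Agent.H42.BD.Limsup

/-!
# The exact asymptotic constant for `H_3`, the cube with a vertex removed

`H_3` is the graph of the cube with one vertex deleted. The upper limit of `f(n; H_3) / n^(3/2)` is
exactly `1 / sqrt 2`.
-/

set_option autoImplicit false

namespace Pool.Agent.Results.MP_bd932b_co.CubeMinusVertex

open Pool.Agent.H42.BD

/-- The upper limit of `f(n; H_3) / n^(3/2)` equals `1 / sqrt 2`. -/
theorem result :
    Filter.limsup (fun n : ℕ => fT n 3 / (n : ℝ) ^ ((3 : ℝ) / 2)) Filter.atTop =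
      1 / Real.sqrt 2 :=
  limsup_three

end Pool.Agent.Results.MP_bd932b_co.CubeMinusVertex
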