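import Mathlib
import Pool.Agent.H41.HKB.EV

/-!
# The asymptotic constants of `H_k` are at most `(3/4) k^(3/4)`
-/

set_option autoImplicit false

namespace Pool.Agent.Results.MP_bd932b_co.ThreeQuarters

open Pool.Agent.H42.BD

/-- For every `k >= 2` and every `ε > 0` we have `f(n; H_k) <= ((3/4) k^(3/4) + ε) n^(3/2)` for all
large `n`. -/
theorem result (k : ℕ) (hk : 2 ≤ k) (ε : ℝ) (hε : 0 < ε) :
    ∀ᶠ n : ℕ in Filter.atTop,
      fT n k ≤ ((3 / 4) * (k : ℝ) ^ ((3 : ℝ) / 4) + ε) * (n : ℝ) ^ ((3 : ℝ) / 2) :=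
  Pool.Agent.H41.HKB.ev_HKB k hk ε hε

end Pool.Agent.Results.MP_bd932b_co.ThreeQuarters
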