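import Mathlib
import Pool.Agent.H42.BD.AsympK

/-!
# Two-sided bounds for the asymptotic constants of all `H_k`
-/

set_option autoImplicit false

namespace Pool.Agent.Results.MP_bd932b_co.TwoSidedBounds

open Pool.Agent.H42.BD

/-- For every `k >= 2` the upper limit of `f(n; H_k) / n^(3/2)` lies between `sqrt (k - 1) / 2` and
`sqrt (k (k - 1) / 8)`. -/
theorem result (k : ℕ) (hk : 2 ≤ k) :
    Real.sqrt ((k : ℝ) - 1) / 2 ≤
      Filter.limsup (fun n : ℕ => fT n k / (n : ℝ) ^ ((3 : ℝ) / 2)) Filter.atTop ∧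
    Filter.limsup (fun n : ℕ => fT n k / (n : ℝ) ^ ((3 : ℝ) / 2)) Filter.atTop ≤
      Real.sqrt ((k : ℝ) * ((k : ℝ) - 1) / 8) :=
  limsup_bounds hk

end Pool.Agent.Results.MP_bd932b_co.TwoSidedBounds
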